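import Pool.Agent.MP_596265_gt.W.Top

/-! The mapping class group acts ergodically on every non-extremal component in genus at least
three, and not on the component of Euler number zero in genus two. -/

namespace Pool.Agent.Results.MP_596265_gt.AllErgodic

open Pool.Agent.MP_596265_gt MeasureTheory

/-- The representations of Euler number `e`. -/
def Level (g : ℕ) (e : ℤ) : Set (SurfaceGroup g →* PSL) := {ρ | EulerNumber ρ e}

/-- Invariance under the orientation preserving automorphisms of the surface group. -/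
def Stable {g : ℕ} (S : Set (SurfaceGroup g →* PSL)) : Prop :=
  ∀ φ, IsPos φ → ∀ ρ ∈ S, ρ.comp φ.toMonoidHom ∈ S

/-- Invariance under conjugation in the target group. -/
def ConjStable {g : ℕ} (S : Set (SurfaceGroup g →* PSL)) : Prop :=
  ∀ p : PSL, ∀ ρ ∈ S, (MulAut.conj p).toMonoidHom.comp ρ ∈ S

theorem result :
    (∀ g : ℕ, 3 ≤ g → ∀ e : ℤ, |e| ≤ 2 * g - 3 → ∀ S ⊆ Level g e,
      NullMeasurableSet (liftSet S) (vol g) → Stable S →
        (vol g (liftSet S) = 0 ↔ vol g (liftSet (Level g e \ S)) ≠ 0)) ∧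
    ∃ S ⊆ Level 2 0, MeasurableSet (liftSet S) ∧ Stable S ∧ ConjStable S ∧
      vol 2 (liftSet S) ≠ 0 ∧ vol 2 (liftSet (Level 2 0 \ S)) ≠ 0 :=
  ⟨fun _ hg _ he => U.top hg he, G2.g2_not⟩

end Pool.Agent.Results.MP_596265_gt.AllErgodic
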