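import Pool.Agent.MP_596265_gt.B5

/-! Representations of small Euler number send some simple closed curve to a non-hyperbolic
element. -/

namespace Pool.Agent.Results.MP_596265_gt.SmallEuler

open Pool.Agent.MP_596265_gt

theorem result (g : ℕ) (hg : 2 ≤ g) (ρ : SurfaceGroup g →* PSL) (e : ℤ) (he : EulerNumber ρ e)
    (hs : 180 * |e| < g) : ∃ γ : SurfaceGroup g, IsSimple g γ ∧ ¬ IsHyperbolic (ρ γ) :=
  small_euler g hg ρ e he hs

end Pool.Agent.Results.MP_596265_gt.SmallEuler
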